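import Mathlib

/-!
# Abel's theorem for Dirichlet series on the real line, and products over primes at `s = 1`
-/

set_option autoImplicit false

namespace Pool.Agent.U53.HL

open Filter Topology Finset

theorem parts (a : ℕ → ℝ) (A : ℝ) (H : ℕ → ℝ) (h0 : H 0 = 1) (N : ℕ) :
    ∑ n ∈ range N, a n * H n - A =
      ∑ n ∈ range N, (H n - H (n + 1)) * (∑ k ∈ range (n + 1), a k - A) +
        H N * (∑ k ∈ range N, a k - A) := by
  induction N with
  | zero => simp [h0]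
  | succ N ih =>
    rw [sum_range_succ, sum_range_succ (fun n => (H n - H (n + 1)) * (∑ k ∈ range (n + 1), a k - A))]
    have h1 : ∑ k ∈ range (N + 1), a k = ∑ k ∈ range N, a k + a N := sum_range_succ _ _
    rw [h1]
    linear_combination ih

theorem abel_bound (a : ℕ → ℝ) (A K δ : ℝ) (N0 : ℕ) (H : ℕ → ℝ) (hH : Antitone H) (h0 : H 0 = 1)
    (hpos : ∀ n, 0 ≤ H n) (hK : ∀ n, |∑ k ∈ range n, a k - A| ≤ K)
    (hδ : ∀ n, N0 ≤ n → |∑ k ∈ range n, a k - A| ≤ δ) (N : ℕ) (hN : N0 ≤ N) :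
    |∑ n ∈ range N, a n * H n - A| ≤ K * (1 - H N0) + δ := by
  have hd : 0 ≤ δ := (abs_nonneg _).trans (hδ N0 le_rfl)
  have hstep : ∀ n, 0 ≤ H n - H (n + 1) := fun n => sub_nonneg.2 (hH (Nat.le_succ n))
  have key : ∀ N, N0 ≤ N → ∑ n ∈ range N, (H n - H (n + 1)) * |∑ k ∈ range (n + 1), a k - A| ≤
      K * (1 - H N0) + δ * (H N0 - H N) := by
    intro N hN
    induction N, hN using Nat.le_induction with
    | base =>
      rw [sub_self, mul_zero, add_zero]
      calc ∑ n ∈ range N0, (H n - H (n + 1)) * |∑ k ∈ range (n + 1), a k - A|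
          ≤ ∑ n ∈ range N0, (H n - H (n + 1)) * K :=
            sum_le_sum fun n _ => mul_le_mul_of_nonneg_left (hK _) (hstep n)
        _ = K * (1 - H N0) := by
            rw [← sum_mul, Finset.sum_range_sub', h0]; ring
    | succ N hN ih =>
      rw [sum_range_succ]
      have h1 := mul_le_mul_of_nonneg_left (hδ (N + 1) (by omega)) (hstep N)
      nlinarith
  rw [parts a A H h0 N]
  refine (abs_add_le _ _).trans ?_
  have h1 : |∑ n ∈ range N, (H n - H (n + 1)) * (∑ k ∈ range (n + 1), a k - A)| ≤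
      K * (1 - H N0) + δ * (H N0 - H N) := by
    refine (abs_sum_le_sum_abs _ _).trans ((le_of_eq ?_).trans (key N hN))
    exact sum_congr rfl fun n _ => by rw [abs_mul, abs_of_nonneg (hstep n)]
  have h2 : |H N * (∑ k ∈ range N, a k - A)| ≤ H N * δ := by
    rw [abs_mul, abs_of_nonneg (hpos N)]
    exact mul_le_mul_of_nonneg_left (hδ N hN) (hpos N)
  have h3 : H N0 ≤ 1 := by rw [← h0]; exact hH (Nat.zero_le _)
  nlinarith

/-- Abel's theorem for Dirichlet series. -/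
theorem abel (a : ℕ → ℝ) (A : ℝ) (hA : Tendsto (fun N => ∑ n ∈ range N, a n) atTop (𝓝 A))
    (hs : ∀ ε : ℝ, 0 < ε → Summable (fun n : ℕ => a n * ((n : ℝ) + 1) ^ (-ε))) :
    Tendsto (fun ε : ℝ => ∑' n : ℕ, a n * ((n : ℝ) + 1) ^ (-ε)) (𝓝[>] 0) (𝓝 A) := by
  have hA' : Tendsto (fun N => |∑ n ∈ range N, a n - A|) atTop (𝓝 0) := by
    have := (hA.sub_const A).abs
    simpa using this
  obtain ⟨K, hK⟩ : ∃ K : ℝ, ∀ N, |∑ n ∈ range N, a n - A| ≤ K := by
    obtain ⟨K, hK⟩ := hA'.bddAbove_range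
    exact ⟨K, fun N => hK ⟨N, rfl⟩⟩
  have hK0 : 0 ≤ K := (abs_nonneg _).trans (hK 0)
  rw [Metric.tendsto_nhds]
  intro δ hδ
  have hδ3 : 0 < δ / 3 := by positivity
  obtain ⟨N0, hN0⟩ := (hA'.eventually (gt_mem_nhds hδ3)).exists_forall_of_atTop
  have hlim : Tendsto (fun ε : ℝ => K * (1 - ((N0 : ℝ) + 1) ^ (-ε))) (𝓝[>] 0) (𝓝 0) := by
    have h1 : ContinuousAt (fun ε : ℝ => K * (1 - ((N0 : ℝ) + 1) ^ (-ε))) 0 := by
      refine continuousAt_const.mul (continuousAt_const.sub ?_)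
      exact (Real.continuousAt_const_rpow (by positivity)).comp continuous_neg.continuousAt
    have h2 := h1.tendsto
    simp only [neg_zero, Real.rpow_zero, sub_self, mul_zero] at h2
    exact h2.mono_left nhdsWithin_le_nhds
  filter_upwards [hlim.eventually (gt_mem_nhds hδ3), self_mem_nhdsWithin] with ε h1 hε
  have hε : 0 < ε := hε
  have hanti : Antitone (fun n : ℕ => ((n : ℝ) + 1) ^ (-ε)) := by
    intro m n hmn
    have h2 : (m : ℝ) ≤ n := by exact_mod_cast hmn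
    exact Real.rpow_le_rpow_of_nonpos (by positivity) (by linarith) (by linarith)
  have hb : ∀ N, N0 ≤ N → |∑ n ∈ range N, a n * ((n : ℝ) + 1) ^ (-ε) - A| ≤
      K * (1 - ((N0 : ℝ) + 1) ^ (-ε)) + δ / 3 := fun N hN =>
    abel_bound a A K (δ / 3) N0 (fun n : ℕ => ((n : ℝ) + 1) ^ (-ε)) hanti (by simp)
      (fun n => by positivity) hK (fun n hn => (hN0 n hn).le) N hN
  have ht := (((hs ε hε).hasSum.tendsto_sum_nat).sub_const A).abs
  have h3 : |∑' n : ℕ, a n * ((n : ℝ) + 1) ^ (-ε) - A| ≤ K * (1 - ((N0 : ℝ) + 1) ^ (-ε)) + δ / 3 :=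
    le_of_tendsto ht (by filter_upwards [eventually_ge_atTop N0] with N hN using hb N hN)
  rw [Real.dist_eq]
  linarith

end Pool.Agent.U53.HL
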