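import Mathlib
import Pool.Agent.U53.HL.Abel

/-!
# The product `∏ (1 - χ(p) / (p - 1))` in terms of `L(1, χ)`
-/

set_option autoImplicit false

namespace Pool.Agent.U53.HL

open Filter Topology Finset

noncomputable def v0 (x : ℕ → ℝ) (n : ℕ) : ℝ := if n.Prime then -Real.log (1 - x n / n) else 0

noncomputable def ve (x : ℕ → ℝ) (ε : ℝ) (n : ℕ) : ℝ :=
  if n.Prime then -Real.log (1 - x n * (n : ℝ) ^ (-(1 + ε))) else 0

noncomputable def g (x : ℕ → ℝ) (n : ℕ) : ℝ :=
  if n.Prime then Real.log (1 - x n / n) - Real.log (1 - x n / ((n : ℝ) - 1)) else 0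

theorem log_near {t : ℝ} (ht : |t| ≤ 1 / 2) : |Real.log (1 - t) + t| ≤ 2 * t ^ 2 := by
  have h1 : |t| < 1 := by linarith
  have h := Real.abs_log_sub_add_sum_range_le h1 1
  simp only [range_one, sum_singleton, zero_add, pow_one, Nat.cast_zero, div_one] at h
  rw [add_comm] at h
  refine h.trans ?_
  rw [div_le_iff₀ (by linarith)]
  have h2 : |t| ^ (1 + 1) = t ^ 2 := by rw [show 1 + 1 = 2 from rfl, sq_abs]
  rw [h2]
  nlinarith [sq_nonneg t]

theorem log_diff {a b m : ℝ} (hm : 0 < m) (ha : m ≤ a) (hb : m ≤ b) :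
    |Real.log a - Real.log b| ≤ |a - b| / m := by
  have ha0 : 0 < a := hm.trans_le ha
  have hb0 : 0 < b := hm.trans_le hb
  rw [abs_le]
  constructor
  · have h1 : Real.log (b / a) ≤ b / a - 1 := Real.log_le_sub_one_of_pos (by positivity)
    rw [Real.log_div hb0.ne' ha0.ne'] at h1
    have h2 : b / a - 1 ≤ |a - b| / m := by
      rw [show b / a - 1 = (b - a) / a by field_simp]
      have h3 : b - a ≤ |a - b| := by rw [abs_sub_comm]; exact le_abs_self _
      calc (b - a) / a ≤ |a - b| / a := by gcongr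
        _ ≤ |a - b| / m := by gcongr
    linarith
  · have h1 : Real.log (a / b) ≤ a / b - 1 := Real.log_le_sub_one_of_pos (by positivity)
    rw [Real.log_div ha0.ne' hb0.ne'] at h1
    have h2 : a / b - 1 ≤ |a - b| / m := by
      rw [show a / b - 1 = (a - b) / b by field_simp]
      calc (a - b) / b ≤ |a - b| / b := by gcongr; exact le_abs_self _
        _ ≤ |a - b| / m := by gcongr
    linarith

theorem g_bound {x : ℕ → ℝ} (hx1 : ∀ n, |x n| ≤ 1) (n : ℕ) (hn : 3 ≤ n) :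
    |g x n| ≤ 1 / ((n : ℝ) * (n - 2)) := by
  have hn' : (3 : ℝ) ≤ n := by exact_mod_cast hn
  have h0 : (0 : ℝ) < n - 1 := by linarith
  have h00 : (0 : ℝ) < n - 2 := by linarith
  have hpos : (0 : ℝ) < n := by linarith
  unfold g
  split_ifs with hp
  · have h1 := abs_le.1 (hx1 n)
    have hm : 0 < ((n : ℝ) - 2) / (n - 1) := by positivity
    have ha : ((n : ℝ) - 2) / (n - 1) ≤ 1 - x n / n := by
      rw [div_le_iff₀ h0]
      have : x n / n ≤ 1 / n := by gcongr; exact h1.2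
      have h3 : (1 - 1 / (n : ℝ)) * (n - 1) = n - 2 + 1 / n := by field_simp; ring
      have h4 : (0 : ℝ) ≤ 1 / n := by positivity
      nlinarith
    have hb : ((n : ℝ) - 2) / (n - 1) ≤ 1 - x n / ((n : ℝ) - 1) := by
      have : x n / ((n : ℝ) - 1) ≤ 1 / (n - 1) := by gcongr; exact h1.2
      have h3 : ((n : ℝ) - 2) / (n - 1) = 1 - 1 / (n - 1) := by field_simp; ring
      rw [h3]; linarith
    refine (log_diff hm ha hb).trans ?_
    have h5 : (1 - x n / (n : ℝ)) - (1 - x n / ((n : ℝ) - 1)) = x n / (n * (n - 1)) := by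
      field_simp; ring
    rw [h5, abs_div, abs_of_pos (mul_pos hpos h0)]
    calc |x n| / ((n : ℝ) * (n - 1)) / ((n - 2) / (n - 1)) ≤ 1 / ((n : ℝ) * (n - 1)) / ((n - 2) / (n - 1)) := by
          gcongr; exact hx1 n
      _ = 1 / ((n : ℝ) * (n - 2)) := by field_simp
  · rw [abs_zero]; positivity

theorem g_summable {x : ℕ → ℝ} (hx1 : ∀ n, |x n| ≤ 1) : Summable (g x) := by
  have h2 : Summable (fun n : ℕ => 3 * (1 / (n : ℝ) ^ 2)) :=
    (Real.summable_one_div_nat_pow.2 (by norm_num)).mul_left 3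
  refine Summable.of_norm_bounded_eventually_nat h2 ?_
  filter_upwards [eventually_ge_atTop 3] with n hn
  rw [Real.norm_eq_abs]
  refine (g_bound hx1 n hn).trans ?_
  have hn' : (3 : ℝ) ≤ n := by exact_mod_cast hn
  rw [div_le_iff₀ (by nlinarith)]
  have : 3 * (1 / (n : ℝ) ^ 2) * (n * (n - 2)) = 3 * (n - 2) / n := by field_simp
  rw [this, le_div_iff₀ (by linarith)]
  linarith

section
variable {q : ℕ} [NeZero q] (χ : DirichletCharacter ℂ q) {x : ℕ → ℝ}

theorem euler (hx : ∀ n : ℕ, χ (n : ZMod q) = x n) (hx1 : ∀ n, |x n| ≤ 1) {ε : ℝ} (hε : 0 < ε) :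
    DirichletCharacter.LFunction χ (((1 + ε : ℝ)) : ℂ) = ((Real.exp (∑' n, ve x ε n) : ℝ) : ℂ) := by
  have hs : 1 < (((1 + ε : ℝ)) : ℂ).re := by rw [Complex.ofReal_re]; linarith
  rw [DirichletCharacter.LFunction_eq_LSeries χ hs, ← DirichletCharacter.LSeries_eulerProduct_exp_log χ hs,
    Complex.ofReal_exp]
  congr 1
  rw [Complex.ofReal_tsum]
  have h1 : ∀ p : Nat.Primes, -Complex.log (1 - χ ((p : ℕ) : ZMod q) * ((p : ℕ) : ℂ) ^ (-(((1 + ε : ℝ)) : ℂ)))
      = ((ve x ε (p : ℕ) : ℝ) : ℂ) := by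
    intro p
    have hp := p.2
    have hp0 : (0 : ℝ) < (p : ℕ) := by exact_mod_cast hp.pos
    have hp1 : (1 : ℝ) < (p : ℕ) := by exact_mod_cast hp.one_lt
    unfold ve
    rw [if_pos hp, hx]
    have e1 : ((p : ℕ) : ℂ) ^ (-(((1 + ε : ℝ)) : ℂ)) = ((((p : ℕ) : ℝ) ^ (-(1 + ε)) : ℝ) : ℂ) := by
      rw [Complex.ofReal_cpow hp0.le]
      push_cast
      rfl
    rw [e1]
    have hle : ((p : ℕ) : ℝ) ^ (-(1 + ε)) < 1 := Real.rpow_lt_one_of_one_lt_of_neg hp1 (by linarith)
    have hge : 0 ≤ ((p : ℕ) : ℝ) ^ (-(1 + ε)) := by positivity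
    have hpos : 0 < 1 - x p * ((p : ℕ) : ℝ) ^ (-(1 + ε)) := by
      have := abs_le.1 (hx1 p)
      nlinarith
    push_cast
    rw [Complex.ofReal_log hpos.le]
    push_cast
    ring
  rw [tsum_congr h1]
  have h2 := tsum_subtype {p : ℕ | p.Prime} (fun n : ℕ => ((ve x ε n : ℝ) : ℂ))
  refine Eq.trans ?_ (h2.trans ?_)
  · rfl
  · refine tsum_congr fun n => ?_
    rw [Set.indicator_apply]
    split_ifs with h
    · rfl
    · have : ¬ n.Prime := h
      unfold ve
      rw [if_neg this, Complex.ofReal_zero]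

theorem term_bound (hx1 : ∀ n, |x n| ≤ 1) {ε : ℝ} (hε : 0 < ε) (n : ℕ) :
    |ve x ε n - v0 x n * (n : ℝ) ^ (-ε)| ≤ 4 * (1 / (n : ℝ) ^ 2) := by
  unfold ve v0
  split_ifs with hp
  · have hn2 : (2 : ℝ) ≤ n := by exact_mod_cast hp.two_le
    have hn0 : (0 : ℝ) < n := by linarith
    set t := x n / n with ht
    set y := (n : ℝ) ^ (-ε) with hy
    have hy0 : 0 ≤ y := by positivity
    have hy1 : y ≤ 1 := Real.rpow_le_one_of_one_le_of_nonpos (by linarith) (by linarith)
    have htn : |t| ≤ 1 / n := by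
      rw [ht, abs_div, abs_of_pos hn0]
      gcongr
      exact hx1 n
    have ht2 : |t| ≤ 1 / 2 := htn.trans (by gcongr)
    have e : x n * (n : ℝ) ^ (-(1 + ε)) = t * y := by
      rw [ht, hy, neg_add, Real.rpow_add hn0, Real.rpow_neg_one]
      ring
    rw [e]
    have hty : |t * y| ≤ |t| := by
      rw [abs_mul, abs_of_nonneg hy0]
      nlinarith [abs_nonneg t]
    have h1 := log_near ht2
    have h2 := log_near (hty.trans ht2)
    have h3 : -Real.log (1 - t * y) - -Real.log (1 - t) * y =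
        -(Real.log (1 - t * y) + t * y) + y * (Real.log (1 - t) + t) := by ring
    rw [h3]
    refine (abs_add_le _ _).trans ?_
    rw [abs_neg, abs_mul, abs_of_nonneg hy0]
    have h4 : (t * y) ^ 2 ≤ t ^ 2 := by
      rw [mul_pow]
      have : y ^ 2 ≤ 1 := by nlinarith
      nlinarith [sq_nonneg t]
    have h5 : y * |Real.log (1 - t) + t| ≤ 1 * (2 * t ^ 2) := by
      apply mul_le_mul hy1 h1 (abs_nonneg _) zero_le_one
    have h6 : t ^ 2 ≤ 1 / (n : ℝ) ^ 2 := by
      rw [← sq_abs, ← one_div_pow]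
      exact pow_le_pow_left₀ (abs_nonneg _) htn 2
    linarith
  · simp only [zero_mul, sub_zero, abs_zero]
    positivity

theorem dom (hx1 : ∀ n, |x n| ≤ 1) :
    Tendsto (fun ε : ℝ => ∑' n, (ve x ε n - v0 x n * (n : ℝ) ^ (-ε))) (𝓝[>] 0) (𝓝 0) := by
  have h : Tendsto (fun ε : ℝ => ∑' n, (ve x ε n - v0 x n * (n : ℝ) ^ (-ε))) (𝓝[>] 0)
      (𝓝 (∑' _ : ℕ, (0 : ℝ))) := by
    refine tendsto_tsum_of_dominated_convergence (bound := fun n : ℕ => 4 * (1 / (n : ℝ) ^ 2)) ?_ ?_ ?_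
    · exact (Real.summable_one_div_nat_pow.2 (by norm_num)).mul_left 4
    · intro n
      unfold ve v0
      split_ifs with hp
      · have hn2 : (2 : ℝ) ≤ n := by exact_mod_cast hp.two_le
        have hn0 : (0 : ℝ) < n := by linarith
        have hc : ContinuousAt (fun ε : ℝ => -Real.log (1 - x n * (n : ℝ) ^ (-(1 + ε))) -
            -Real.log (1 - x n / n) * (n : ℝ) ^ (-ε)) 0 := by
          have h1 : ContinuousAt (fun ε : ℝ => (n : ℝ) ^ (-(1 + ε))) 0 :=
            (Real.continuousAt_const_rpow hn0.ne').comp (by fun_prop)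
          have h2 : ContinuousAt (fun ε : ℝ => (n : ℝ) ^ (-ε)) 0 :=
            (Real.continuousAt_const_rpow hn0.ne').comp (by fun_prop)
          refine ContinuousAt.sub (ContinuousAt.neg (ContinuousAt.log (continuousAt_const.sub
            (continuousAt_const.mul h1)) ?_)) (continuousAt_const.mul h2)
          have h3 := abs_le.1 (hx1 n)
          have h4 : (n : ℝ) ^ (-(1 + (0 : ℝ))) ≤ 1 / 2 := by
            rw [add_zero, Real.rpow_neg_one, inv_eq_one_div]
            gcongr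
          have h5 : 0 ≤ (n : ℝ) ^ (-(1 + (0 : ℝ))) := by positivity
          have h6 : x n * (n : ℝ) ^ (-(1 + (0 : ℝ))) ≤ 1 * (n : ℝ) ^ (-(1 + (0 : ℝ))) :=
            mul_le_mul_of_nonneg_right h3.2 h5
          intro h7
          generalize (n : ℝ) ^ (-(1 + (0 : ℝ))) = w at h4 h5 h6 h7
          generalize x n * w = u at h6 h7
          linarith
        have h1 := hc.tendsto
        have e : -Real.log (1 - x n * (n : ℝ) ^ (-(1 + (0 : ℝ)))) -
            -Real.log (1 - x n / n) * (n : ℝ) ^ (-(0 : ℝ)) = 0 := by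
          rw [add_zero, Real.rpow_neg_one, neg_zero, Real.rpow_zero, div_eq_mul_inv]
          ring
        rw [e] at h1
        exact h1.mono_left nhdsWithin_le_nhds
      · simp
    · filter_upwards [self_mem_nhdsWithin] with ε hε n
      rw [Real.norm_eq_abs]
      exact term_bound hx1 hε n
  rwa [tsum_zero] at h

theorem v0_le (hx1 : ∀ n, |x n| ≤ 1) (n : ℕ) : |v0 x n| ≤ 2 / n := by
  unfold v0
  split_ifs with hp
  · have hn2 : (2 : ℝ) ≤ n := by exact_mod_cast hp.two_le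
    have hn0 : (0 : ℝ) < n := by linarith
    have htn : |x n / n| ≤ 1 / n := by
      rw [abs_div, abs_of_pos hn0]
      gcongr
      exact hx1 n
    have ht2 : |x n / n| ≤ 1 / 2 := htn.trans (by gcongr)
    have h1 := log_near ht2
    rw [abs_neg]
    have h2 : |Real.log (1 - x n / n)| ≤ |Real.log (1 - x n / n) + x n / n| + |x n / n| := by
      have := abs_sub (Real.log (1 - x n / n) + x n / n) (x n / n)
      rwa [add_sub_cancel_right] at this
    have h3 : 2 * (x n / n) ^ 2 ≤ |x n / n| := by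
      rw [← sq_abs]
      nlinarith [abs_nonneg (x n / n)]
    have h4 : (2 : ℝ) / n = 2 * (1 / n) := by ring
    rw [h4]
    linarith
  · rw [abs_zero]; positivity

/-- **The constant.** -/
theorem main (hχ : χ ≠ 1) (hx : ∀ n : ℕ, χ (n : ZMod q) = x n) (hx1 : ∀ n, |x n| ≤ 1) (h2 : x 2 ≤ 0)
    (C : ℝ) (hC : 0 < C)
    (hlim : Tendsto (fun N : ℕ => ∏ p ∈ (range N).filter Nat.Prime, (1 - x p / ((p : ℝ) - 1))) atTop (𝓝 C)) :
    DirichletCharacter.LFunction χ 1 = ((Real.exp (- ∑' n, g x n) / C : ℝ) : ℂ) := by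
  have hfac : ∀ p : ℕ, p.Prime → 0 < 1 - x p / ((p : ℝ) - 1) := by
    intro p hp
    rcases hp.two_le.eq_or_lt with h | h
    · rw [← h]
      norm_num
      linarith
    · have h3 : (3 : ℝ) ≤ p := by exact_mod_cast h
      rw [sub_pos, div_lt_one (by linarith)]
      have := (abs_le.1 (hx1 p)).2
      linarith
  -- partial sums
  have hsum : ∀ N : ℕ, ∑ n ∈ range N, v0 x n =
      -Real.log (∏ p ∈ (range N).filter Nat.Prime, (1 - x p / ((p : ℝ) - 1))) - ∑ n ∈ range N, g x n := by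
    intro N
    rw [Real.log_prod (fun p hp => (hfac p (mem_filter.1 hp).2).ne'), sum_filter, eq_sub_iff_add_eq,
      ← sum_add_distrib, ← sum_neg_distrib]
    refine sum_congr rfl fun n _ => ?_
    unfold v0 g
    split_ifs <;> ring
  have hB : Tendsto (fun N => ∑ n ∈ range N, v0 x n) atTop (𝓝 (-Real.log C - ∑' n, g x n)) := by
    simp_rw [hsum]
    exact ((Real.continuousAt_log hC.ne').tendsto.comp hlim).neg.sub (g_summable hx1).hasSum.tendsto_sum_nat
  have hv0 : v0 x 0 = 0 := by unfold v0; rw [if_neg Nat.not_prime_zero]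
  have hB' : Tendsto (fun N => ∑ n ∈ range N, v0 x (n + 1)) atTop (𝓝 (-Real.log C - ∑' n, g x n)) := by
    have h1 := hB.comp (tendsto_add_atTop_nat 1)
    refine h1.congr fun N => ?_
    simp only [Function.comp]
    rw [sum_range_succ', hv0, add_zero]
  have hsm : ∀ ε : ℝ, 0 < ε → Summable (fun n : ℕ => v0 x (n + 1) * ((n : ℝ) + 1) ^ (-ε)) := by
    intro ε hε
    have h1 : Summable (fun n : ℕ => 2 * (1 / (((n + 1 : ℕ) : ℝ)) ^ (1 + ε))) :=
      (((summable_nat_add_iff 1).2 (Real.summable_one_div_nat_rpow.2 (by linarith : (1:ℝ) < 1 + ε)))).mul_left 2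
    refine Summable.of_norm_bounded h1 fun n => ?_
    rw [norm_mul, Real.norm_eq_abs, Real.norm_eq_abs, abs_of_nonneg (by positivity : (0:ℝ) ≤ ((n : ℝ) + 1) ^ (-ε))]
    have h3 := v0_le hx1 (n + 1)
    have h4 : (0 : ℝ) < (n : ℝ) + 1 := by positivity
    push_cast at h3 ⊢
    calc |v0 x (n + 1)| * ((n : ℝ) + 1) ^ (-ε) ≤ 2 / ((n : ℝ) + 1) * ((n : ℝ) + 1) ^ (-ε) := by gcongr
      _ = 2 * (1 / ((n : ℝ) + 1) ^ (1 + ε)) := by
          rw [Real.rpow_add h4, Real.rpow_one, Real.rpow_neg h4.le]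
          field_simp
  have hab := abel (fun n => v0 x (n + 1)) _ hB' hsm
  have hshift : ∀ ε : ℝ, 0 < ε → ∑' n : ℕ, v0 x (n + 1) * ((n : ℝ) + 1) ^ (-ε) = ∑' n : ℕ, v0 x n * (n : ℝ) ^ (-ε) := by
    intro ε hε
    have h1 : Summable (fun n : ℕ => v0 x n * (n : ℝ) ^ (-ε)) := by
      rw [← summable_nat_add_iff 1]
      refine (hsm ε hε).congr fun n => ?_
      push_cast
      rfl
    rw [h1.tsum_eq_zero_add, hv0, zero_mul, zero_add]
    refine tsum_congr fun n => ?_
    push_cast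
    rfl
  have hve : ∀ ε : ℝ, 0 < ε → ∑' n, ve x ε n =
      ∑' n, (ve x ε n - v0 x n * (n : ℝ) ^ (-ε)) + ∑' n : ℕ, v0 x (n + 1) * ((n : ℝ) + 1) ^ (-ε) := by
    intro ε hε
    have h1 : Summable (fun n : ℕ => v0 x n * (n : ℝ) ^ (-ε)) := by
      rw [← summable_nat_add_iff 1]
      refine (hsm ε hε).congr fun n => ?_
      push_cast
      rfl
    have h2 : Summable (fun n : ℕ => ve x ε n - v0 x n * (n : ℝ) ^ (-ε)) :=
      Summable.of_norm_bounded ((Real.summable_one_div_nat_pow.2 (by norm_num : 1 < 2)).mul_left 4)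
        fun n => by rw [Real.norm_eq_abs]; exact term_bound hx1 hε n
    rw [hshift ε hε, ← h2.tsum_add h1]
    refine tsum_congr fun n => ?_
    ring
  have hlimE : Tendsto (fun ε : ℝ => ((Real.exp (∑' n, ve x ε n) : ℝ) : ℂ)) (𝓝[>] 0)
      (𝓝 ((Real.exp (0 + (-Real.log C - ∑' n, g x n)) : ℝ) : ℂ)) := by
    have h1 := (dom hx1).add hab
    have h2 : Tendsto (fun ε : ℝ => ∑' n, ve x ε n) (𝓝[>] 0) (𝓝 (0 + (-Real.log C - ∑' n, g x n))) := by
      refine h1.congr' ?_
      filter_upwards [self_mem_nhdsWithin] with ε hε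
      exact (hve ε hε).symm
    exact (Complex.continuous_ofReal.tendsto _).comp ((Real.continuous_exp.tendsto _).comp h2)
  have hlimL : Tendsto (fun ε : ℝ => DirichletCharacter.LFunction χ (((1 + ε : ℝ)) : ℂ)) (𝓝[>] 0)
      (𝓝 (DirichletCharacter.LFunction χ 1)) := by
    have hc := (DirichletCharacter.differentiable_LFunction hχ).continuous
    have h1 : Continuous (fun ε : ℝ => DirichletCharacter.LFunction χ (((1 + ε : ℝ)) : ℂ)) :=
      hc.comp (Complex.continuous_ofReal.comp (by fun_prop))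
    have h2 := h1.tendsto 0
    simp only [add_zero, Complex.ofReal_one] at h2
    exact h2.mono_left nhdsWithin_le_nhds
  have hlimE' : Tendsto (fun ε : ℝ => DirichletCharacter.LFunction χ (((1 + ε : ℝ)) : ℂ)) (𝓝[>] 0)
      (𝓝 ((Real.exp (0 + (-Real.log C - ∑' n, g x n)) : ℝ) : ℂ)) := by
    refine hlimE.congr' ?_
    filter_upwards [self_mem_nhdsWithin] with ε hε
    exact (euler χ hx hx1 hε).symm
  rw [tendsto_nhds_unique hlimL hlimE']
  congr 1
  rw [zero_add, sub_eq_add_neg, Real.exp_add, Real.exp_neg, Real.exp_log hC]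
  ring

end

end Pool.Agent.U53.HL
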