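import Mathlib
import Pool.Agent.U53.HL.Const

/-!
# Numerical bounds for the product; the value `L(1, χ)` as a convergent series
-/

set_option autoImplicit false

namespace Pool.Agent.U53.HL

open Filter Topology Finset

/-- the finite product -/
noncomputable def fp (x : ℕ → ℝ) (N : ℕ) : ℝ :=
  ∏ p ∈ (range N).filter Nat.Prime, ((1 - x p / ((p : ℝ) - 1)) / (1 - x p / p))

theorem fac_pos {x : ℕ → ℝ} (hx1 : ∀ n, |x n| ≤ 1) (h2 : x 2 ≤ 0) (p : ℕ) (hp : p.Prime) :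
    0 < 1 - x p / ((p : ℝ) - 1) := by
  rcases hp.two_le.eq_or_lt with h | h
  · rw [← h]
    norm_num
    linarith
  · have h3 : (3 : ℝ) ≤ p := by exact_mod_cast h
    rw [sub_pos, div_lt_one (by linarith)]
    have := (abs_le.1 (hx1 p)).2
    linarith

theorem fac_pos' {x : ℕ → ℝ} (hx1 : ∀ n, |x n| ≤ 1) (p : ℕ) (hp : p.Prime) : 0 < 1 - x p / (p : ℝ) := by
  have h3 : (2 : ℝ) ≤ p := by exact_mod_cast hp.two_le
  rw [sub_pos, div_lt_one (by linarith)]
  have := (abs_le.1 (hx1 p)).2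
  linarith

theorem fp_pos {x : ℕ → ℝ} (hx1 : ∀ n, |x n| ≤ 1) (h2 : x 2 ≤ 0) (N : ℕ) : 0 < fp x N :=
  prod_pos fun p hp => div_pos (fac_pos hx1 h2 p (mem_filter.1 hp).2) (fac_pos' hx1 p (mem_filter.1 hp).2)

theorem fp_eq {x : ℕ → ℝ} (hx1 : ∀ n, |x n| ≤ 1) (h2 : x 2 ≤ 0) (N : ℕ) :
    fp x N = Real.exp (-∑ n ∈ range N, g x n) := by
  rw [← Real.exp_log (fp_pos hx1 h2 N)]
  congr 1
  unfold fp
  rw [Real.log_prod (fun p hp => (div_pos (fac_pos hx1 h2 p (mem_filter.1 hp).2)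
    (fac_pos' hx1 p (mem_filter.1 hp).2)).ne'), sum_filter, ← sum_neg_distrib]
  refine sum_congr rfl fun n _ => ?_
  unfold g
  split_ifs with hp
  · rw [Real.log_div (fac_pos hx1 h2 n hp).ne' (fac_pos' hx1 n hp).ne']
    ring
  · ring

theorem tail {x : ℕ → ℝ} (hx1 : ∀ n, |x n| ≤ 1) (N0 : ℕ) (h3 : 3 ≤ N0) :
    |∑' n, g x n - ∑ n ∈ range N0, g x n| ≤ 1 / ((N0 : ℝ) - 2) := by
  have h3' : (3 : ℝ) ≤ N0 := by exact_mod_cast h3
  have key : ∀ N, N0 ≤ N → |∑ n ∈ range N, g x n - ∑ n ∈ range N0, g x n| ≤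
      1 / ((N0 : ℝ) - 2) - 1 / ((N : ℝ) - 2) := by
    intro N hN
    induction N, hN using Nat.le_induction with
    | base => simp
    | succ N hN ih =>
      have hN' : (3 : ℝ) ≤ N := h3'.trans (by exact_mod_cast hN)
      rw [sum_range_succ]
      have h1 : ∑ n ∈ range N, g x n + g x N - ∑ n ∈ range N0, g x n =
          (∑ n ∈ range N, g x n - ∑ n ∈ range N0, g x n) + g x N := by ring
      rw [h1]
      refine (abs_add_le _ _).trans ?_
      have h4 := g_bound hx1 N (h3.trans hN)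
      have h5 : 1 / ((N : ℝ) * (N - 2)) ≤ 1 / ((N : ℝ) - 2) - 1 / (((N + 1 : ℕ) : ℝ) - 2) := by
        push_cast
        have e : 1 / ((N : ℝ) - 2) - 1 / ((N : ℝ) + 1 - 2) = 1 / ((N - 1) * (N - 2)) := by
          have : (N : ℝ) - 2 ≠ 0 := by linarith
          have : (N : ℝ) + 1 - 2 ≠ 0 := by linarith
          have : (N : ℝ) - 1 ≠ 0 := by linarith
          field_simp
          ring
        rw [e]
        apply one_div_le_one_div_of_le
        · have : 0 < (N : ℝ) - 1 := by linarith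
          have : 0 < (N : ℝ) - 2 := by linarith
          positivity
        · nlinarith
      linarith
  have h1 := ((g_summable hx1).hasSum.tendsto_sum_nat.sub_const (∑ n ∈ range N0, g x n)).abs
  refine le_of_tendsto h1 ?_
  filter_upwards [eventually_ge_atTop N0] with N hN
  refine (key N hN).trans ?_
  have hN' : (3 : ℝ) ≤ N := h3'.trans (by exact_mod_cast hN)
  have : 0 ≤ 1 / ((N : ℝ) - 2) := by
    have : 0 < (N : ℝ) - 2 := by linarith
    positivity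
  linarith

theorem exp_bounds {x : ℕ → ℝ} (hx1 : ∀ n, |x n| ≤ 1) (h2 : x 2 ≤ 0) (N0 : ℕ) (h3 : 4 ≤ N0) :
    fp x N0 * (1 - 1 / ((N0 : ℝ) - 2)) ≤ Real.exp (-∑' n, g x n) ∧
      Real.exp (-∑' n, g x n) * (1 - 1 / ((N0 : ℝ) - 2)) ≤ fp x N0 := by
  have h3' : (4 : ℝ) ≤ N0 := by exact_mod_cast h3
  have ht := abs_le.1 (tail hx1 N0 (by omega))
  set d := 1 / ((N0 : ℝ) - 2) with hd
  have hd0 : 0 < d := by
    have : 0 < (N0 : ℝ) - 2 := by linarith
    positivity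
  rw [fp_eq hx1 h2]
  have he : ∀ u v : ℝ, v - u ≤ d → Real.exp v * (1 - d) ≤ Real.exp u := by
    intro u v huv
    have h1 : 1 - d ≤ Real.exp (-d) := by have := Real.add_one_le_exp (-d); linarith
    calc Real.exp v * (1 - d) ≤ Real.exp v * Real.exp (-d) := by gcongr
      _ = Real.exp (v - d) := by rw [← Real.exp_add]; ring_nf
      _ ≤ Real.exp u := Real.exp_le_exp.2 (by linarith)
  exact ⟨he _ _ (by linarith), he _ _ (by linarith)⟩

section
variable {q : ℕ} [NeZero q] (χ : DirichletCharacter ℂ q) {x : ℕ → ℝ}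

/-- `L(1, χ)` as the limit of the partial sums, if they converge -/
theorem L_one (hχ : χ ≠ 1) (hx : ∀ n : ℕ, χ (n : ZMod q) = x n) (hx1 : ∀ n, |x n| ≤ 1) (l : ℝ)
    (hl : Tendsto (fun N : ℕ => ∑ n ∈ range N, x (n + 1) / ((n : ℝ) + 1)) atTop (𝓝 l)) :
    DirichletCharacter.LFunction χ 1 = (l : ℂ) := by
  have hsm : ∀ ε : ℝ, 0 < ε → Summable (fun n : ℕ => x (n + 1) / ((n : ℝ) + 1) * ((n : ℝ) + 1) ^ (-ε)) := by
    intro ε hε
    have h1 : Summable (fun n : ℕ => (1 / (((n + 1 : ℕ) : ℝ)) ^ (1 + ε))) :=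
      (((summable_nat_add_iff 1).2 (Real.summable_one_div_nat_rpow.2 (by linarith : (1:ℝ) < 1 + ε))))
    refine Summable.of_norm_bounded h1 fun n => ?_
    have h4 : (0 : ℝ) < (n : ℝ) + 1 := by positivity
    rw [norm_mul, Real.norm_eq_abs, Real.norm_eq_abs, abs_of_nonneg (by positivity : (0:ℝ) ≤ ((n : ℝ) + 1) ^ (-ε)),
      abs_div, abs_of_pos h4]
    push_cast
    calc |x (n + 1)| / ((n : ℝ) + 1) * ((n : ℝ) + 1) ^ (-ε) ≤ 1 / ((n : ℝ) + 1) * ((n : ℝ) + 1) ^ (-ε) := by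
          gcongr; exact hx1 _
      _ = 1 / ((n : ℝ) + 1) ^ (1 + ε) := by
          rw [Real.rpow_add h4, Real.rpow_one, Real.rpow_neg h4.le]
          field_simp
  have hab := abel (fun n => x (n + 1) / ((n : ℝ) + 1)) l hl hsm
  have h1 : ∀ ε : ℝ, 0 < ε → DirichletCharacter.LFunction χ (((1 + ε : ℝ)) : ℂ) =
      ((∑' n : ℕ, x (n + 1) / ((n : ℝ) + 1) * ((n : ℝ) + 1) ^ (-ε) : ℝ) : ℂ) := by
    intro ε hε
    have hs : 1 < (((1 + ε : ℝ)) : ℂ).re := by rw [Complex.ofReal_re]; linarith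
    have hsum := DirichletCharacter.LSeriesSummable_of_one_lt_re χ hs
    rw [DirichletCharacter.LFunction_eq_LSeries χ hs, LSeries, Complex.ofReal_tsum,
      hsum.tsum_eq_zero_add, LSeries.term_zero, zero_add]
    refine tsum_congr fun n => ?_
    have h4 : (0 : ℝ) < (n : ℝ) + 1 := by positivity
    rw [LSeries.term_of_ne_zero (Nat.succ_ne_zero n)]
    have h5 : χ (((n + 1 : ℕ)) : ZMod q) = x (n + 1) := hx (n + 1)
    rw [h5]
    have h6 : ((n + 1 : ℕ) : ℂ) ^ (((1 + ε : ℝ)) : ℂ) = ((((n : ℝ) + 1) ^ (1 + ε) : ℝ) : ℂ) := by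
      rw [Complex.ofReal_cpow h4.le]
      push_cast
      rfl
    rw [h6, ← Complex.ofReal_div]
    congr 1
    rw [Real.rpow_add h4, Real.rpow_one, Real.rpow_neg h4.le]
    field_simp
  have hlimE : Tendsto (fun ε : ℝ => DirichletCharacter.LFunction χ (((1 + ε : ℝ)) : ℂ)) (𝓝[>] 0)
      (𝓝 (l : ℂ)) := by
    refine ((Complex.continuous_ofReal.tendsto l).comp hab).congr' ?_
    filter_upwards [self_mem_nhdsWithin] with ε hε
    exact (h1 ε hε).symm
  have hlimL : Tendsto (fun ε : ℝ => DirichletCharacter.LFunction χ (((1 + ε : ℝ)) : ℂ)) (𝓝[>] 0)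
      (𝓝 (DirichletCharacter.LFunction χ 1)) := by
    have hc := (DirichletCharacter.differentiable_LFunction hχ).continuous
    have h1 : Continuous (fun ε : ℝ => DirichletCharacter.LFunction χ (((1 + ε : ℝ)) : ℂ)) :=
      hc.comp (Complex.continuous_ofReal.comp (by fun_prop))
    have h2 := h1.tendsto 0
    simp only [add_zero, Complex.ofReal_one] at h2
    exact h2.mono_left nhdsWithin_le_nhds
  exact tendsto_nhds_unique hlimL hlimE

/-- **Numerical enclosure of the constant.** -/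
theorem enclosure (hχ : χ ≠ 1) (hx : ∀ n : ℕ, χ (n : ZMod q) = x n) (hx1 : ∀ n, |x n| ≤ 1) (h2 : x 2 ≤ 0)
    (C : ℝ) (hC : 0 < C)
    (hlim : Tendsto (fun N : ℕ => ∏ p ∈ (range N).filter Nat.Prime, (1 - x p / ((p : ℝ) - 1))) atTop (𝓝 C))
    (l : ℝ) (hl : Tendsto (fun N : ℕ => ∑ n ∈ range N, x (n + 1) / ((n : ℝ) + 1)) atTop (𝓝 l))
    (N0 : ℕ) (h3 : 4 ≤ N0) :
    fp x N0 * (1 - 1 / ((N0 : ℝ) - 2)) ≤ C * l ∧ C * l * (1 - 1 / ((N0 : ℝ) - 2)) ≤ fp x N0 := by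
  have h1 := main χ hχ hx hx1 h2 C hC hlim
  rw [L_one χ hχ hx hx1 l hl] at h1
  have h4 : l = Real.exp (- ∑' n, g x n) / C := by exact_mod_cast h1
  have h5 : C * l = Real.exp (- ∑' n, g x n) := by
    rw [h4]; field_simp
  rw [h5]
  exact exp_bounds hx1 h2 N0 h3

end

end Pool.Agent.U53.HL
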