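import Mathlib
import Pool.Agent.U53.HL.Tail

/-!
# The character modulo `5`: numerical evaluation of the Hardy-Littlewood constant of `k ^ 2 + 3 k + 1`
-/

set_option autoImplicit false

namespace Pool.Agent.U53.HL

open Filter Topology Finset

/-- the quadratic character modulo 5 -/
def xi (n : ℕ) : ℤ := if n % 5 = 0 then 0 else if n % 5 = 1 ∨ n % 5 = 4 then 1 else -1

/-- the primes below 1000 -/
def P1000 : List ℕ :=
  [2, 3, 5, 7, 11, 13, 17, 19, 23, 29, 31, 37, 41, 43, 47, 53, 59, 61, 67, 71, 73, 79, 83, 89,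
    97, 101, 103, 107, 109, 113, 127, 131, 137, 139, 149, 151, 157, 163, 167, 173, 179, 181,
    191, 193, 197, 199, 211, 223, 227, 229, 233, 239, 241, 251, 257, 263, 269, 271, 277, 281,
    283, 293, 307, 311, 313, 317, 331, 337, 347, 349, 353, 359, 367, 373, 379, 383, 389, 397,
    401, 409, 419, 421, 431, 433, 439, 443, 449, 457, 461, 463, 467, 479, 487, 491, 499, 503,
    509, 521, 523, 541, 547, 557, 563, 569, 571, 577, 587, 593, 599, 601, 607, 613, 617, 619,
    631, 641, 643, 647, 653, 659, 661, 673, 677, 683, 691, 701, 709, 719, 727, 733, 739, 743,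
    751, 757, 761, 769, 773, 787, 797, 809, 811, 821, 823, 827, 829, 839, 853, 857, 859, 863,
    877, 881, 883, 887, 907, 911, 919, 929, 937, 941, 947, 953, 967, 971, 977, 983, 991, 997]

theorem prime_iff (n : ℕ) (hn : n < 1000) : n.Prime ↔ 2 ≤ n ∧ ∀ m < 32, 2 ≤ m → m ∣ n → m = n := by
  constructor
  · intro h
    refine ⟨h.two_le, fun m _ hm hd => ?_⟩
    rcases h.eq_one_or_self_of_dvd m hd with h1 | h1
    · omega
    · exact h1
  · rintro ⟨h1, h2⟩
    by_contra hcon
    have h3 := Nat.minFac_sq_le_self (by omega : 0 < n) hcon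
    have h4 : n.minFac < 32 := by nlinarith
    have h5 : n.minFac.Prime := Nat.minFac_prime (by omega)
    have h6 := h2 n.minFac h4 h5.two_le (Nat.minFac_dvd n)
    rw [h6] at h5
    exact hcon h5

theorem dec1 : ∀ n < 1000, ((2 ≤ n ∧ ∀ m < 32, 2 ≤ m → m ∣ n → m = n) ↔ n ∈ P1000) := by
  decide +kernel

theorem filter_eq : (range 1000).filter Nat.Prime = P1000.toFinset := by
  ext n
  rw [mem_filter, mem_range, List.mem_toFinset]
  constructor
  · rintro ⟨h1, h2⟩
    exact (dec1 n h1).1 ((prime_iff n h1).1 h2)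
  · intro h
    have h1 : ∀ n ∈ P1000, n < 1000 := by decide +kernel
    exact ⟨h1 n h, (prime_iff n (h1 n h)).2 ((dec1 n (h1 n h)).2 h)⟩

theorem nodup : P1000.Nodup := by decide +kernel

/-- numerator and denominator of the factors -/
def numf (p : ℕ) : ℕ := if p % 5 = 0 then 1 else if p % 5 = 1 ∨ p % 5 = 4 then (p - 2) * p else p * p
def denf (p : ℕ) : ℕ := if p % 5 = 0 then 1 else if p % 5 = 1 ∨ p % 5 = 4 then (p - 1) * (p - 1) else
  (p - 1) * (p + 1)

theorem denf_pos : ∀ p ∈ P1000, 0 < denf p := by decide +kernel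

theorem list_prod (L : List ℕ) (f : ℕ → ℝ) (h : ∀ p ∈ L, f p = (numf p : ℝ) / denf p) :
    (L.map f).prod = ((L.map numf).prod : ℕ) / ((L.map denf).prod : ℕ) := by
  induction L with
  | nil => simp
  | cons a L ih =>
    rw [List.map_cons, List.prod_cons, List.map_cons, List.prod_cons, List.map_cons, List.prod_cons,
      h a List.mem_cons_self, ih (fun p hp => h p (List.mem_cons_of_mem _ hp))]
    push_cast
    rw [mul_div_mul_comm]

theorem fac_eq (p : ℕ) (hp : 2 ≤ p) :
    (1 - ((xi p : ℤ) : ℝ) / ((p : ℝ) - 1)) / (1 - ((xi p : ℤ) : ℝ) / p) = (numf p : ℝ) / denf p := by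
  have h2 : (2 : ℝ) ≤ p := by exact_mod_cast hp
  have h1 : (p : ℝ) - 1 ≠ 0 := by linarith
  have h0 : (p : ℝ) ≠ 0 := by linarith
  unfold xi numf denf
  split_ifs with h3 h4
  · simp
  · push_cast [Nat.cast_sub (by omega : 2 ≤ p), Nat.cast_sub (by omega : 1 ≤ p)]
    have : (1 : ℝ) - 1 / p ≠ 0 := by
      rw [Ne, sub_eq_zero]
      intro h5
      rw [eq_div_iff h0] at h5
      apply h1; linarith
    field_simp
    ring
  · push_cast [Nat.cast_sub (by omega : 1 ≤ p)]
    have : (1 : ℝ) - (-1) / p ≠ 0 := by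
      have : 0 < 1 / (p : ℝ) := by positivity
      rw [neg_div]
      linarith
    have h6 : (p : ℝ) + 1 ≠ 0 := by linarith
    field_simp
    ring

theorem fp_val : fp (fun n => ((xi n : ℤ) : ℝ)) 1000 =
    ((P1000.map numf).prod : ℕ) / ((P1000.map denf).prod : ℕ) := by
  unfold fp
  rw [filter_eq, List.prod_toFinset _ nodup]
  refine list_prod _ _ fun p hp => ?_
  have h : ∀ p ∈ P1000, 2 ≤ p := by decide +kernel
  exact fac_eq p (h p hp)

theorem fp_lower : (1.5264 : ℝ) < fp (fun n => ((xi n : ℤ) : ℝ)) 1000 := by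
  rw [fp_val]
  have h0 : 0 < (P1000.map denf).prod := by decide +kernel
  have h1 : 15264 * (P1000.map denf).prod < 10000 * (P1000.map numf).prod := by decide +kernel
  have h0' : (0 : ℝ) < ((P1000.map denf).prod : ℕ) := by exact_mod_cast h0
  have h1' : (15264 : ℝ) * ((P1000.map denf).prod : ℕ) < 10000 * ((P1000.map numf).prod : ℕ) := by exact_mod_cast h1
  rw [lt_div_iff₀ h0']
  linarith

theorem fp_upper : fp (fun n => ((xi n : ℤ) : ℝ)) 1000 < (1.5266 : ℝ) := by
  rw [fp_val]
  have h0 : 0 < (P1000.map denf).prod := by decide +kernel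
  have h1 : 10000 * (P1000.map numf).prod < 15266 * (P1000.map denf).prod := by decide +kernel
  have h0' : (0 : ℝ) < ((P1000.map denf).prod : ℕ) := by exact_mod_cast h0
  have h1' : 10000 * (((P1000.map numf).prod : ℕ) : ℝ) < 15266 * ((P1000.map denf).prod : ℕ) := by exact_mod_cast h1
  rw [div_lt_iff₀ h0']
  linarith

end Pool.Agent.U53.HL
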