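import Mathlib
import Pool.Agent.U53.HL.Five
import Pool.Agent.Y781.JR.Dens

/-!
# The character modulo `8`: the Hardy-Littlewood constant of `n ^ 2 - 2`
-/

set_option autoImplicit false

namespace Pool.Agent.U53.HL.Eight

open Filter Topology Finset
open Pool.Agent.U53.HL (P1000 filter_eq nodup fp enclosure)

/-- the character modulo 8 belonging to `2` -/
def xi (n : ℕ) : ℤ := if n % 2 = 0 then 0 else if n % 8 = 1 ∨ n % 8 = 7 then 1 else -1

/-- numerator and denominator of the factors -/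
def numf (p : ℕ) : ℕ := if p % 2 = 0 then 1 else if p % 8 = 1 ∨ p % 8 = 7 then (p - 2) * p else p * p
def denf (p : ℕ) : ℕ := if p % 2 = 0 then 1 else if p % 8 = 1 ∨ p % 8 = 7 then (p - 1) * (p - 1) else
  (p - 1) * (p + 1)

theorem list_prod (L : List ℕ) (f : ℕ → ℝ) (h : ∀ p ∈ L, f p = (numf p : ℝ) / denf p) :
    (L.map f).prod = ((L.map numf).prod : ℕ) / ((L.map denf).prod : ℕ) := by
  induction L with
  | nil => simp
  | cons a L ih =>
    rw [List.map_cons, List.prod_cons, List.map_cons, List.prod_cons, List.map_cons, List.prod_cons,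
      h a List.mem_cons_self, ih (fun p hp => h p (List.mem_cons_of_mem _ hp))]
    push_cast
    rw [mul_div_mul_comm]

theorem fac_eq (p : ℕ) (hp : 2 ≤ p) :
    (1 - ((xi p : ℤ) : ℝ) / ((p : ℝ) - 1)) / (1 - ((xi p : ℤ) : ℝ) / p) = (numf p : ℝ) / denf p := by
  have h2 : (2 : ℝ) ≤ p := by exact_mod_cast hp
  have h1 : (p : ℝ) - 1 ≠ 0 := by linarith
  have h0 : (p : ℝ) ≠ 0 := by linarith
  unfold xi numf denf
  split_ifs with h3 h4
  · simp
  · push_cast [Nat.cast_sub (by omega : 2 ≤ p), Nat.cast_sub (by omega : 1 ≤ p)]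
    have : (1 : ℝ) - 1 / p ≠ 0 := by
      rw [Ne, sub_eq_zero]
      intro h5
      rw [eq_div_iff h0] at h5
      apply h1; linarith
    field_simp
    ring
  · push_cast [Nat.cast_sub (by omega : 1 ≤ p)]
    have : (1 : ℝ) - (-1) / p ≠ 0 := by
      have : 0 < 1 / (p : ℝ) := by positivity
      rw [neg_div]
      linarith
    have h6 : (p : ℝ) + 1 ≠ 0 := by linarith
    field_simp
    ring

theorem fp_val : fp (fun n => ((xi n : ℤ) : ℝ)) 1000 =
    ((P1000.map numf).prod : ℕ) / ((P1000.map denf).prod : ℕ) := by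
  unfold fp
  rw [filter_eq, List.prod_toFinset _ nodup]
  refine list_prod _ _ fun p hp => ?_
  have h : ∀ p ∈ P1000, 2 ≤ p := by decide +kernel
  exact fac_eq p (h p hp)

theorem fp_lower : (1.1529 : ℝ) < fp (fun n => ((xi n : ℤ) : ℝ)) 1000 := by
  rw [fp_val]
  have h0 : 0 < (P1000.map denf).prod := by decide +kernel
  have h1 : 11529 * (P1000.map denf).prod < 10000 * (P1000.map numf).prod := by decide +kernel
  have h0' : (0 : ℝ) < ((P1000.map denf).prod : ℕ) := by exact_mod_cast h0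
  have h1' : (11529 : ℝ) * ((P1000.map denf).prod : ℕ) < 10000 * ((P1000.map numf).prod : ℕ) := by exact_mod_cast h1
  rw [lt_div_iff₀ h0']
  linarith

theorem fp_upper : fp (fun n => ((xi n : ℤ) : ℝ)) 1000 < (1.1531 : ℝ) := by
  rw [fp_val]
  have h0 : 0 < (P1000.map denf).prod := by decide +kernel
  have h1 : 10000 * (P1000.map numf).prod < 11531 * (P1000.map denf).prod := by decide +kernel
  have h0' : (0 : ℝ) < ((P1000.map denf).prod : ℕ) := by exact_mod_cast h0
  have h1' : 10000 * (((P1000.map numf).prod : ℕ) : ℝ) < 11531 * ((P1000.map denf).prod : ℕ) := by exact_mod_cast h1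
  rw [div_lt_iff₀ h0']
  linarith

/-- the character modulo 8 -/
noncomputable def chi8 : DirichletCharacter ℂ 8 := (ZMod.χ₈).ringHomComp (Int.castRingHom ℂ)

theorem qc8 (n : ℕ) : ZMod.χ₈ (n : ZMod 8) = xi n := by
  rw [ZMod.χ₈_nat_eq_if_mod_eight]
  unfold xi
  rfl

theorem chi8_apply (n : ℕ) : chi8 (n : ZMod 8) = (((xi n : ℤ) : ℝ) : ℂ) := by
  unfold chi8
  rw [MulChar.ringHomComp_apply, qc8]
  simp

theorem chi8_ne : chi8 ≠ 1 := by
  intro h
  have h1 := chi8_apply 3
  rw [h] at h1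
  have h2 : IsUnit ((3 : ℕ) : ZMod 8) := by decide
  rw [MulChar.one_apply h2] at h1
  have h3 : xi 3 = -1 := by decide
  rw [h3] at h1
  norm_num at h1

theorem xi_abs (n : ℕ) : |((xi n : ℤ) : ℝ)| ≤ 1 := by
  unfold xi
  split_ifs <;> norm_num

/-- the block sums -/
noncomputable def tt (m : ℕ) : ℝ := 1 / (8 * (m : ℝ) + 1) - 1 / (8 * m + 3) - 1 / (8 * m + 5) + 1 / (8 * m + 7)

noncomputable def hh (m : ℕ) : ℝ := 2 / ((8 * (m : ℝ) + 1) * (8 * m + 3))

theorem tt_bounds (m : ℕ) : 0 ≤ tt m ∧ tt m ≤ hh m - hh (m + 1) := by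
  have hm : (0 : ℝ) ≤ m := Nat.cast_nonneg m
  have e1 : 1 / (8 * (m : ℝ) + 1) - 1 / (8 * m + 3) = 2 / ((8 * (m : ℝ) + 1) * (8 * m + 3)) := by
    field_simp; ring
  have e2 : 1 / (8 * (m : ℝ) + 5) - 1 / (8 * m + 7) = 2 / ((8 * (m : ℝ) + 5) * (8 * m + 7)) := by
    field_simp; ring
  constructor
  · unfold tt
    have e3 : 2 / ((8 * (m : ℝ) + 5) * (8 * m + 7)) ≤ 2 / ((8 * (m : ℝ) + 1) * (8 * m + 3)) := by
      apply div_le_div_of_nonneg_left (by norm_num) (by positivity)
      nlinarith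
    linarith
  · unfold tt hh
    push_cast
    have e3 : 2 / ((8 * ((m : ℝ) + 1) + 1) * (8 * (m + 1) + 3)) ≤ 2 / ((8 * (m : ℝ) + 5) * (8 * m + 7)) := by
      apply div_le_div_of_nonneg_left (by norm_num) (by positivity)
      nlinarith
    linarith

theorem hh_nonneg (m : ℕ) : 0 ≤ hh m := by unfold hh; positivity

theorem tt_tail (M N : ℕ) (h : M ≤ N) : ∑ m ∈ range N, tt m ≤ ∑ m ∈ range M, tt m + (hh M - hh N) := by
  induction N, h using Nat.le_induction with
  | base => simp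
  | succ N hN ih =>
    rw [sum_range_succ]
    have := (tt_bounds N).2
    linarith

theorem tt_summable : Summable tt := by
  refine summable_of_sum_range_le (c := hh 0) (fun m => (tt_bounds m).1) fun N => ?_
  have h1 := tt_tail 0 N (Nat.zero_le _)
  rw [range_zero, sum_empty, zero_add] at h1
  have h2 := hh_nonneg N
  linarith

/-- `L(1, χ_8)` -/
noncomputable def l8 : ℝ := ∑' m, tt m

theorem l8_bounds (M : ℕ) : ∑ m ∈ range M, tt m ≤ l8 ∧ l8 ≤ ∑ m ∈ range M, tt m + hh M := by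
  constructor
  · exact tt_summable.sum_le_tsum _ fun m _ => (tt_bounds m).1
  · refine le_of_tendsto tt_summable.hasSum.tendsto_sum_nat ?_
    filter_upwards [eventually_ge_atTop M] with N hN
    have h2 := hh_nonneg N
    have := tt_tail M N hN
    linarith

theorem l8_lower : 0.6231 < l8 := by
  refine lt_of_lt_of_le ?_ (l8_bounds 20).1
  simp only [sum_range_succ, range_zero, sum_empty, tt]
  norm_num

theorem l8_upper : l8 < 0.6233 := by
  refine lt_of_le_of_lt (l8_bounds 20).2 ?_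
  simp only [sum_range_succ, range_zero, sum_empty, tt, hh]
  norm_num

theorem xi_block (M : ℕ) : ∑ n ∈ range (8 * M), ((xi (n + 1) : ℤ) : ℝ) / ((n : ℝ) + 1) = ∑ m ∈ range M, tt m := by
  induction M with
  | zero => simp
  | succ M ih =>
    rw [show 8 * (M + 1) = 8 * M + 1 + 1 + 1 + 1 + 1 + 1 + 1 + 1 by ring, sum_range_succ, sum_range_succ,
      sum_range_succ, sum_range_succ, sum_range_succ, sum_range_succ, sum_range_succ, sum_range_succ, ih,
      sum_range_succ]
    have h1 : xi (8 * M + 1) = 1 := by unfold xi; rw [if_neg (by omega), if_pos (by omega)]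
    have h2 : xi (8 * M + 1 + 1) = 0 := by unfold xi; rw [if_pos (by omega)]
    have h3 : xi (8 * M + 1 + 1 + 1) = -1 := by unfold xi; rw [if_neg (by omega), if_neg (by omega)]
    have h4 : xi (8 * M + 1 + 1 + 1 + 1) = 0 := by unfold xi; rw [if_pos (by omega)]
    have h5 : xi (8 * M + 1 + 1 + 1 + 1 + 1) = -1 := by unfold xi; rw [if_neg (by omega), if_neg (by omega)]
    have h6 : xi (8 * M + 1 + 1 + 1 + 1 + 1 + 1) = 0 := by unfold xi; rw [if_pos (by omega)]
    have h7 : xi (8 * M + 1 + 1 + 1 + 1 + 1 + 1 + 1) = 1 := by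
      unfold xi; rw [if_neg (by omega), if_pos (by omega)]
    have h8 : xi (8 * M + 1 + 1 + 1 + 1 + 1 + 1 + 1 + 1) = 0 := by unfold xi; rw [if_pos (by omega)]
    rw [h1, h2, h3, h4, h5, h6, h7, h8]
    unfold tt
    push_cast
    ring

theorem xi_series : Tendsto (fun N : ℕ => ∑ n ∈ range N, ((xi (n + 1) : ℤ) : ℝ) / ((n : ℝ) + 1)) atTop (𝓝 l8) := by
  have hdiv : Tendsto (fun N : ℕ => N / 8) atTop atTop := by
    refine tendsto_atTop.2 fun b => ?_
    filter_upwards [eventually_ge_atTop (8 * b)] with N hN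
    omega
  have h1 : Tendsto (fun N : ℕ => ∑ m ∈ range (N / 8), tt m) atTop (𝓝 l8) :=
    tt_summable.hasSum.tendsto_sum_nat.comp hdiv
  have h2 : Tendsto (fun N : ℕ => ∑ n ∈ range N, ((xi (n + 1) : ℤ) : ℝ) / ((n : ℝ) + 1) -
      ∑ m ∈ range (N / 8), tt m) atTop (𝓝 0) := by
    have h3 : Tendsto (fun N : ℕ => 7 * (1 / (((N / 8 : ℕ) : ℝ) + 1))) atTop (𝓝 0) := by
      have := (tendsto_one_div_add_atTop_nhds_zero_nat (𝕜 := ℝ)).comp hdiv
      simpa using this.const_mul 7
    refine squeeze_zero_norm (fun N => ?_) h3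
    rw [← xi_block (N / 8), ← Finset.sum_sdiff_eq_sub (range_subset_range.2 (Nat.mul_div_le N 8)), Real.norm_eq_abs]
    have hcard : (range N \ range (8 * (N / 8))).card ≤ 7 := by
      rw [card_sdiff_of_subset (range_subset_range.2 (Nat.mul_div_le N 8)), card_range, card_range]
      omega
    refine (abs_sum_le_sum_abs _ _).trans ?_
    have h4 : ∀ n ∈ range N \ range (8 * (N / 8)), |((xi (n + 1) : ℤ) : ℝ) / ((n : ℝ) + 1)| ≤
        1 / (((N / 8 : ℕ) : ℝ) + 1) := by
      intro n hn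
      rw [Finset.mem_sdiff, Finset.mem_range, Finset.mem_range, not_lt] at hn
      rw [abs_div, abs_of_pos (by positivity : (0 : ℝ) < (n : ℝ) + 1)]
      have h5 : ((N / 8 : ℕ) : ℝ) ≤ n := by
        have : N / 8 ≤ n := by omega
        exact_mod_cast this
      calc |((xi (n + 1) : ℤ) : ℝ)| / ((n : ℝ) + 1) ≤ 1 / ((n : ℝ) + 1) := by gcongr; exact xi_abs _
        _ ≤ 1 / (((N / 8 : ℕ) : ℝ) + 1) := by gcongr
    refine (sum_le_card_nsmul _ _ _ h4).trans ?_
    rw [nsmul_eq_mul]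
    have h6 : ((range N \ range (8 * (N / 8))).card : ℝ) ≤ 7 := by exact_mod_cast hcard
    gcongr
  have h3 := h2.add h1
  rw [zero_add] at h3
  refine h3.congr fun N => ?_
  ring

theorem legendre2 (p : ℕ) [Fact p.Prime] (h2 : p ≠ 2) : legendreSym p 2 = xi p := by
  rw [legendreSym.at_two h2, qc8]

theorem jacobi2 (p : ℕ) (hp : p.Prime) (h2 : p ≠ 2) : jacobiSym (-(-2)) p = xi p := by
  have : Fact p.Prime := ⟨hp⟩
  rw [neg_neg, ← legendre2 p h2, jacobiSym.legendreSym.to_jacobiSym]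

/-- the number of roots of `n ^ 2 - 2` modulo `p` -/
theorem roots (p : ℕ) (hp : p.Prime) :
    ((((range p).filter (fun r : ℕ => (p : ℤ) ∣ (r : ℤ) ^ 2 - 2)).card : ℕ) : ℤ) = 1 + xi p := by
  rcases eq_or_ne p 2 with rfl | h2
  · decide
  have : Fact p.Prime := ⟨hp⟩
  have h1 := legendreSym.card_sqrts p h2 2
  rw [legendre2 p h2] at h1
  rw [add_comm, ← h1]
  congr 1
  apply Finset.card_bij (fun (r : ℕ) _ => (r : ZMod p))
  · intro r hr
    rw [mem_filter, mem_range] at hr
    rw [Set.mem_toFinset, Set.mem_ofPred_eq]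
    have h4 := (ZMod.intCast_zmod_eq_zero_iff_dvd ((r : ℤ) ^ 2 - 2) p).2 hr.2
    push_cast at h4 ⊢
    linear_combination h4
  · intro a ha b hb hab
    rw [mem_filter, mem_range] at ha hb
    have h5 := congrArg ZMod.val hab
    rwa [ZMod.val_cast_of_lt ha.1, ZMod.val_cast_of_lt hb.1] at h5
  · intro y hy
    rw [Set.mem_toFinset, Set.mem_ofPred_eq] at hy
    refine ⟨y.val, ?_, ?_⟩
    · rw [mem_filter, mem_range]
      refine ⟨ZMod.val_lt _, ?_⟩
      rw [← ZMod.intCast_zmod_eq_zero_iff_dvd]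
      push_cast
      rw [ZMod.natCast_zmod_val]
      push_cast at hy
      linear_combination hy
    · rw [ZMod.natCast_zmod_val]

/-- the partial products of the constant -/
noncomputable def CP (N : ℕ) : ℝ := ∏ p ∈ (range N).filter Nat.Prime, (1 - ((xi p : ℤ) : ℝ) / ((p : ℝ) - 1))

theorem CP_eq (N : ℕ) (hN : 3 ≤ N) : CP N = Pool.Agent.Y781.JR.RR (-2) N := by
  unfold CP Pool.Agent.Y781.JR.RR
  have h3 : (range N).filter Nat.Prime = insert 2 ((range N).filter (fun p : ℕ => p.Prime ∧ p ≠ 2)) := by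
    ext p
    rw [mem_filter, mem_insert, mem_filter, mem_range]
    constructor
    · rintro ⟨h4, h5⟩
      rcases eq_or_ne p 2 with h6 | h6
      · exact Or.inl h6
      · exact Or.inr ⟨h4, h5, h6⟩
    · rintro (rfl | ⟨h4, h5, h6⟩)
      · exact ⟨by omega, Nat.prime_two⟩
      · exact ⟨h4, h5⟩
  have h4 : 2 ∉ (range N).filter (fun p : ℕ => p.Prime ∧ p ≠ 2) := by
    rw [mem_filter]
    rintro ⟨_, _, h⟩
    exact h rfl
  rw [h3, prod_insert h4]
  have h5 : xi 2 = 0 := by decide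
  rw [h5]
  simp only [Int.cast_zero, zero_div, sub_zero, one_mul]
  refine prod_congr rfl fun p hp => ?_
  rw [mem_filter] at hp
  rw [jacobi2 p hp.2.1 hp.2.2]

theorem CP_conv : ∃ C : ℝ, 0 < C ∧ Tendsto CP atTop (𝓝 C) := by
  obtain ⟨C, hC, h⟩ := Pool.Agent.Y781.JR.RR_conv (-2) (by
    rw [neg_neg]
    rintro ⟨r, hr⟩
    have h1 : r ≤ 1 := by nlinarith
    have h2 : -1 ≤ r := by nlinarith
    interval_cases r <;> omega)
  refine ⟨C, hC, ?_⟩
  refine h.congr' ?_
  filter_upwards [eventually_ge_atTop 3] with N hN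
  exact (CP_eq N hN).symm

/-- the constant -/
noncomputable def CC : ℝ := Classical.choose CP_conv

theorem CC_pos : 0 < CC := (Classical.choose_spec CP_conv).1
theorem CC_lim : Tendsto CP atTop (𝓝 CC) := (Classical.choose_spec CP_conv).2

theorem CC_bounds : 0.9238 < CC / 2 ∧ CC / 2 < 0.9264 := by
  have h := enclosure chi8 chi8_ne (x := fun n => ((xi n : ℤ) : ℝ)) chi8_apply xi_abs
    (by have : xi 2 = 0 := by decide
        simp only [this]; norm_num) CC CC_pos CC_lim l8 xi_series 1000 (by norm_num)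
  have h1 := fp_lower
  have h2 := fp_upper
  have h3 := l8_lower
  have h4 := l8_upper
  obtain ⟨h5, h6⟩ := h
  norm_num at h5 h6
  have h7 := CC_pos
  constructor
  · have : 1.15174 < CC * l8 := by nlinarith
    have h8 : CC * l8 ≤ CC * 0.6233 := mul_le_mul_of_nonneg_left h4.le h7.le
    linarith
  · have : CC * l8 < 1.15427 := by nlinarith
    have h8 : CC * 0.6231 ≤ CC * l8 := mul_le_mul_of_nonneg_left h3.le h7.le
    linarith

end Pool.Agent.U53.HL.Eight
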