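import Mathlib
import Pool.Agent.U53.HL.Five

/-!
# The character modulo `5`: `L(1, χ)`, root numbers of `k ^ 2 + 3 k + 1`
-/

set_option autoImplicit false

namespace Pool.Agent.U53.HL

open Filter Topology Finset

instance fact5 : Fact (Nat.Prime 5) := ⟨by norm_num⟩

/-- the character modulo 5 -/
noncomputable def chi5 : DirichletCharacter ℂ 5 := (quadraticChar (ZMod 5)).ringHomComp (Int.castRingHom ℂ)

theorem qc5 (n : ℕ) : quadraticChar (ZMod 5) (n : ZMod 5) = xi n := by
  have h1 : ((n % 5 : ℕ) : ZMod 5) = (n : ZMod 5) := ZMod.natCast_mod n 5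
  rw [← h1]
  have h2 : n % 5 < 5 := Nat.mod_lt _ (by norm_num)
  unfold xi
  generalize n % 5 = r at h2
  interval_cases r <;> decide

theorem chi5_apply (n : ℕ) : chi5 (n : ZMod 5) = (((xi n : ℤ) : ℝ) : ℂ) := by
  unfold chi5
  rw [MulChar.ringHomComp_apply, qc5]
  simp

theorem chi5_ne : chi5 ≠ 1 := by
  intro h
  have h1 := chi5_apply 2
  rw [h] at h1
  have h2 : IsUnit ((2 : ℕ) : ZMod 5) := by decide
  rw [MulChar.one_apply h2] at h1
  have h3 : xi 2 = -1 := by decide
  rw [h3] at h1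
  norm_num at h1

theorem xi_abs (n : ℕ) : |((xi n : ℤ) : ℝ)| ≤ 1 := by
  unfold xi
  split_ifs <;> norm_num

/-- the block sums -/
noncomputable def tt (m : ℕ) : ℝ := 1 / (5 * (m : ℝ) + 1) - 1 / (5 * m + 2) - 1 / (5 * m + 3) + 1 / (5 * m + 4)

noncomputable def hh (m : ℕ) : ℝ := 1 / ((5 * (m : ℝ) + 1) * (5 * m + 2))

theorem tt_bounds (m : ℕ) : 0 ≤ tt m ∧ tt m ≤ hh m - hh (m + 1) := by
  have hm : (0 : ℝ) ≤ m := Nat.cast_nonneg m
  have e : tt m = (20 * m + 10) / ((5 * (m : ℝ) + 1) * (5 * m + 2) * ((5 * m + 3) * (5 * m + 4))) := by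
    unfold tt
    field_simp
    ring
  constructor
  · rw [e]; positivity
  · unfold tt hh
    push_cast
    have e1 : 1 / (5 * (m : ℝ) + 1) - 1 / (5 * m + 2) = 1 / ((5 * (m : ℝ) + 1) * (5 * m + 2)) := by
      field_simp; ring
    have e2 : 1 / (5 * (m : ℝ) + 3) - 1 / (5 * m + 4) = 1 / ((5 * (m : ℝ) + 3) * (5 * m + 4)) := by
      field_simp; ring
    have e3 : 1 / ((5 * ((m : ℝ) + 1) + 1) * (5 * (m + 1) + 2)) ≤ 1 / ((5 * (m : ℝ) + 3) * (5 * m + 4)) := by
      apply one_div_le_one_div_of_le (by positivity)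
      nlinarith
    linarith

theorem hh_tend : Tendsto hh atTop (𝓝 0) := by
  have h1 : Tendsto (fun m : ℕ => 1 / ((m : ℝ) + 1)) atTop (𝓝 0) := tendsto_one_div_add_atTop_nhds_zero_nat
  refine squeeze_zero (fun m => ?_) (fun m => ?_) h1
  · unfold hh; positivity
  · unfold hh
    have hm : (0 : ℝ) ≤ m := Nat.cast_nonneg m
    apply one_div_le_one_div_of_le (by positivity)
    nlinarith

theorem tt_tail (M N : ℕ) (h : M ≤ N) : ∑ m ∈ range N, tt m ≤ ∑ m ∈ range M, tt m + (hh M - hh N) := by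
  induction N, h using Nat.le_induction with
  | base => simp
  | succ N hN ih =>
    rw [sum_range_succ]
    have := (tt_bounds N).2
    linarith

theorem tt_summable : Summable tt := by
  refine summable_of_sum_range_le (c := hh 0) (fun m => (tt_bounds m).1) fun N => ?_
  have h1 := tt_tail 0 N (Nat.zero_le _)
  rw [range_zero, sum_empty, zero_add] at h1
  have h2 : 0 ≤ hh N := by unfold hh; positivity
  linarith

/-- `L(1, χ_5)` -/
noncomputable def l5 : ℝ := ∑' m, tt m

theorem l5_bounds (M : ℕ) : ∑ m ∈ range M, tt m ≤ l5 ∧ l5 ≤ ∑ m ∈ range M, tt m + hh M := by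
  constructor
  · exact tt_summable.sum_le_tsum _ fun m _ => (tt_bounds m).1
  · refine le_of_tendsto tt_summable.hasSum.tendsto_sum_nat ?_
    filter_upwards [eventually_ge_atTop M] with N hN
    have h2 : 0 ≤ hh N := by unfold hh; positivity
    have := tt_tail M N hN
    linarith

theorem l5_lower : 0.4303 < l5 := by
  refine lt_of_lt_of_le ?_ (l5_bounds 20).1
  simp only [sum_range_succ, range_zero, sum_empty, tt]
  norm_num

theorem l5_upper : l5 < 0.4305 := by
  refine lt_of_le_of_lt (l5_bounds 20).2 ?_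
  simp only [sum_range_succ, range_zero, sum_empty, tt, hh]
  norm_num

theorem xi_block (M : ℕ) : ∑ n ∈ range (5 * M), ((xi (n + 1) : ℤ) : ℝ) / ((n : ℝ) + 1) = ∑ m ∈ range M, tt m := by
  induction M with
  | zero => simp
  | succ M ih =>
    rw [show 5 * (M + 1) = 5 * M + 1 + 1 + 1 + 1 + 1 by ring, sum_range_succ, sum_range_succ, sum_range_succ,
      sum_range_succ, sum_range_succ, ih, sum_range_succ]
    have h1 : xi (5 * M + 1) = 1 := by unfold xi; rw [if_neg (by omega), if_pos (by omega)]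
    have h2 : xi (5 * M + 1 + 1) = -1 := by unfold xi; rw [if_neg (by omega), if_neg (by omega)]
    have h3 : xi (5 * M + 1 + 1 + 1) = -1 := by unfold xi; rw [if_neg (by omega), if_neg (by omega)]
    have h4 : xi (5 * M + 1 + 1 + 1 + 1) = 1 := by unfold xi; rw [if_neg (by omega), if_pos (by omega)]
    have h5 : xi (5 * M + 1 + 1 + 1 + 1 + 1) = 0 := by unfold xi; rw [if_pos (by omega)]
    rw [h1, h2, h3, h4, h5]
    unfold tt
    push_cast
    ring

theorem xi_series : Tendsto (fun N : ℕ => ∑ n ∈ range N, ((xi (n + 1) : ℤ) : ℝ) / ((n : ℝ) + 1)) atTop (𝓝 l5) := by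
  have hdiv : Tendsto (fun N : ℕ => N / 5) atTop atTop := by
    refine tendsto_atTop.2 fun b => ?_
    filter_upwards [eventually_ge_atTop (5 * b)] with N hN
    omega
  have h1 : Tendsto (fun N : ℕ => ∑ m ∈ range (N / 5), tt m) atTop (𝓝 l5) :=
    tt_summable.hasSum.tendsto_sum_nat.comp hdiv
  have h2 : Tendsto (fun N : ℕ => ∑ n ∈ range N, ((xi (n + 1) : ℤ) : ℝ) / ((n : ℝ) + 1) -
      ∑ m ∈ range (N / 5), tt m) atTop (𝓝 0) := by
    have h3 : Tendsto (fun N : ℕ => 4 * (1 / (((N / 5 : ℕ) : ℝ) + 1))) atTop (𝓝 0) := by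
      have := (tendsto_one_div_add_atTop_nhds_zero_nat (𝕜 := ℝ)).comp hdiv
      simpa using this.const_mul 4
    refine squeeze_zero_norm (fun N => ?_) h3
    rw [← xi_block (N / 5), ← Finset.sum_sdiff_eq_sub (range_subset_range.2 (Nat.mul_div_le N 5)), Real.norm_eq_abs]
    have hcard : (range N \ range (5 * (N / 5))).card ≤ 4 := by
      rw [card_sdiff_of_subset (range_subset_range.2 (Nat.mul_div_le N 5)), card_range, card_range]
      omega
    refine (abs_sum_le_sum_abs _ _).trans ?_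
    have h4 : ∀ n ∈ range N \ range (5 * (N / 5)), |((xi (n + 1) : ℤ) : ℝ) / ((n : ℝ) + 1)| ≤
        1 / (((N / 5 : ℕ) : ℝ) + 1) := by
      intro n hn
      rw [Finset.mem_sdiff, Finset.mem_range, Finset.mem_range, not_lt] at hn
      rw [abs_div, abs_of_pos (by positivity : (0 : ℝ) < (n : ℝ) + 1)]
      have h5 : ((N / 5 : ℕ) : ℝ) ≤ n := by
        have : N / 5 ≤ n := by omega
        exact_mod_cast this
      calc |((xi (n + 1) : ℤ) : ℝ)| / ((n : ℝ) + 1) ≤ 1 / ((n : ℝ) + 1) := by gcongr; exact xi_abs _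
        _ ≤ 1 / (((N / 5 : ℕ) : ℝ) + 1) := by gcongr
    refine (sum_le_card_nsmul _ _ _ h4).trans ?_
    rw [nsmul_eq_mul]
    have h6 : ((range N \ range (5 * (N / 5))).card : ℝ) ≤ 4 := by exact_mod_cast hcard
    gcongr
  have h3 := h2.add h1
  rw [zero_add] at h3
  refine h3.congr fun N => ?_
  ring

/-- quadratic reciprocity -/
theorem legendre5 (p : ℕ) [Fact p.Prime] (h2 : p ≠ 2) : legendreSym p 5 = xi p := by
  have hodd : Odd p := (Fact.out : p.Prime).odd_of_ne_two h2
  have h1 : jacobiSym ((5 : ℕ) : ℤ) p = jacobiSym (p : ℤ) 5 :=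
    jacobiSym.quadratic_reciprocity_one_mod_four (by norm_num) hodd
  have h3 : jacobiSym ((5 : ℕ) : ℤ) p = legendreSym p 5 := by
    rw [jacobiSym.legendreSym.to_jacobiSym]; rfl
  have h4 : jacobiSym (p : ℤ) 5 = quadraticChar (ZMod 5) (p : ZMod 5) := by
    rw [← jacobiSym.legendreSym.to_jacobiSym]
    unfold legendreSym
    push_cast
    rfl
  rw [← h3, h1, h4, qc5]

theorem jacobi5 (p : ℕ) (hp : p.Prime) (h2 : p ≠ 2) : jacobiSym (-(-5)) p = xi p := by
  have : Fact p.Prime := ⟨hp⟩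
  rw [neg_neg, ← legendre5 p h2, jacobiSym.legendreSym.to_jacobiSym]

/-- the number of roots of `k ^ 2 + 3 k + 1` modulo `p` -/
theorem roots (p : ℕ) (hp : p.Prime) :
    ((((range p).filter (fun r : ℕ => p ∣ r ^ 2 + 3 * r + 1)).card : ℕ) : ℤ) = 1 + xi p := by
  rcases eq_or_ne p 2 with rfl | h2
  · decide
  have : Fact p.Prime := ⟨hp⟩
  have h1 := legendreSym.card_sqrts p h2 5
  rw [legendre5 p h2] at h1
  rw [add_comm, ← h1]
  congr 1
  have h20 : (2 : ZMod p) ≠ 0 := by
    intro h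
    have h3 : ((2 : ℕ) : ZMod p) = 0 := by exact_mod_cast h
    rw [ZMod.natCast_eq_zero_iff] at h3
    have := (Nat.prime_dvd_prime_iff_eq hp Nat.prime_two).1 h3
    exact h2 this
  apply Finset.card_bij (fun (r : ℕ) _ => (2 * r + 3 : ZMod p))
  · intro r hr
    rw [mem_filter, mem_range] at hr
    rw [Set.mem_toFinset, Set.mem_ofPred_eq]
    have h4 := (ZMod.natCast_eq_zero_iff (r ^ 2 + 3 * r + 1) p).2 hr.2
    push_cast at h4 ⊢
    linear_combination 4 * h4
  · intro a ha b hb hab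
    rw [mem_filter, mem_range] at ha hb
    have h4 : (a : ZMod p) = b := by
      have : (2 : ZMod p) * (a - b) = 0 := by linear_combination hab
      rcases mul_eq_zero.1 this with h5 | h5
      · exact absurd h5 h20
      · exact sub_eq_zero.1 h5
    have h5 := congrArg ZMod.val h4
    rwa [ZMod.val_cast_of_lt ha.1, ZMod.val_cast_of_lt hb.1] at h5
  · intro y hy
    rw [Set.mem_toFinset, Set.mem_ofPred_eq] at hy
    refine ⟨((y - 3) * 2⁻¹ : ZMod p).val, ?_, ?_⟩
    · rw [mem_filter, mem_range]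
      refine ⟨ZMod.val_lt _, ?_⟩
      rw [← ZMod.natCast_eq_zero_iff]
      push_cast
      rw [ZMod.natCast_zmod_val]
      push_cast at hy
      field_simp
      linear_combination hy
    · rw [ZMod.natCast_zmod_val]
      field_simp
      ring

end Pool.Agent.U53.HL
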