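import Mathlib
import Pool.Agent.U53.HL.Five2
import Pool.Agent.Y781.JR.Dens

/-!
# The Hardy-Littlewood constant of `k ^ 2 + 3 k + 1`
-/

set_option autoImplicit false

namespace Pool.Agent.U53.HL

open Filter Topology Finset

/-- the partial products of the constant -/
noncomputable def CP (N : ℕ) : ℝ := ∏ p ∈ (range N).filter Nat.Prime, (1 - ((xi p : ℤ) : ℝ) / ((p : ℝ) - 1))

theorem CP_eq (N : ℕ) (hN : 3 ≤ N) : CP N = 2 * Pool.Agent.Y781.JR.RR (-5) N := by
  unfold CP Pool.Agent.Y781.JR.RR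
  have h3 : (range N).filter Nat.Prime = insert 2 ((range N).filter (fun p : ℕ => p.Prime ∧ p ≠ 2)) := by
    ext p
    rw [mem_filter, mem_insert, mem_filter, mem_range]
    constructor
    · rintro ⟨h4, h5⟩
      rcases eq_or_ne p 2 with h6 | h6
      · exact Or.inl h6
      · exact Or.inr ⟨h4, h5, h6⟩
    · rintro (rfl | ⟨h4, h5, h6⟩)
      · exact ⟨by omega, Nat.prime_two⟩
      · exact ⟨h4, h5⟩
  have h4 : 2 ∉ (range N).filter (fun p : ℕ => p.Prime ∧ p ≠ 2) := by
    rw [mem_filter]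
    rintro ⟨_, _, h⟩
    exact h rfl
  rw [h3, prod_insert h4]
  congr 1
  · have : xi 2 = -1 := by decide
    rw [this]
    norm_num
  · refine prod_congr rfl fun p hp => ?_
    rw [mem_filter] at hp
    rw [jacobi5 p hp.2.1 hp.2.2]

theorem CP_conv : ∃ C : ℝ, 0 < C ∧ Tendsto CP atTop (𝓝 C) := by
  obtain ⟨C, hC, h⟩ := Pool.Agent.Y781.JR.RR_conv (-5) (by
    rw [neg_neg]
    rintro ⟨r, hr⟩
    have h1 : r ≤ 2 := by nlinarith
    have h2 : -2 ≤ r := by nlinarith
    interval_cases r <;> omega)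
  refine ⟨2 * C, by positivity, ?_⟩
  refine (h.const_mul 2).congr' ?_
  filter_upwards [eventually_ge_atTop 3] with N hN
  exact (CP_eq N hN).symm

/-- the constant -/
noncomputable def CC : ℝ := Classical.choose CP_conv

theorem CC_pos : 0 < CC := (Classical.choose_spec CP_conv).1
theorem CC_lim : Tendsto CP atTop (𝓝 CC) := (Classical.choose_spec CP_conv).2

theorem CC_bounds : 1.771 < CC / 2 ∧ CC / 2 < 1.776 := by
  have h := enclosure chi5 chi5_ne (x := fun n => ((xi n : ℤ) : ℝ)) chi5_apply xi_abs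
    (by have : xi 2 = -1 := by decide
        simp only [this]; norm_num) CC CC_pos CC_lim l5 xi_series 1000 (by norm_num)
  have h1 := fp_lower
  have h2 := fp_upper
  have h3 := l5_lower
  have h4 := l5_upper
  obtain ⟨h5, h6⟩ := h
  norm_num at h5 h6
  have h7 := CC_pos
  constructor
  · have : 1.52487 < CC * l5 := by nlinarith
    have h8 : CC * l5 ≤ CC * 0.4305 := mul_le_mul_of_nonneg_left h4.le h7.le
    linarith
  · have : CC * l5 < 1.52814 := by nlinarith
    have h8 : CC * 0.4303 ≤ CC * l5 := mul_le_mul_of_nonneg_left h3.le h7.le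
    linarith

end Pool.Agent.U53.HL
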